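import Pool.Agent.K4W.StmtsF

set_option autoImplicit false

open scoped Classical

namespace Pool.Agent.K4W.H17

open Pool.Agent.Helper69_Weyl (ee W)
open Pool.Agent.VM (Nr)

theorem exc (cl1 : Cl1Stmt) (cl2 : Cl2Stmt) (chc : ChcStmt) (bcd : BcdStmt) (cov : CovStmt) :
    ExcStmt := by
  obtain ⟨Z1, cl1⟩ := cl1
  obtain ⟨Z2, cl2⟩ := cl2
  obtain ⟨Z3, chc⟩ := chc
  obtain ⟨Z4, bcd⟩ := bcd
  obtain ⟨Z5, cov⟩ := cov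
  refine ⟨Z1 + Z2 + Z3 + Z4 + Z5 + 3, ?_⟩
  intro Z hZ N Q a t S Ψ hpar hS hΨ hcard
  have hz3 : (3 : ℝ) ≤ (Z : ℝ) := by
    have : 3 ≤ Z := by omega
    exact_mod_cast this
  have hz1 : (1 : ℝ) ≤ (Z : ℝ) := by linarith
  have hz0 : (0 : ℝ) < (Z : ℝ) := by linarith
  have hSz : Sz Z N := ⟨hpar.1, hpar.2.1⟩
  obtain ⟨B, hB, hBm⟩ := bcd Z (by omega) N S Ψ hSz hS hΨ hcard
  have h1 := cl1 Z (by omega) N Q a t hpar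
  have h2 := cl2 Z (by omega) N Q a t hpar
  set A1 := (Hs (Xz Z)).filter (fun H : ℤ => ∃ r : ℕ, 1 ≤ r ∧ r * Z ^ 84 ≤ N ∧
      Nr (48 * t * (H : ℝ) * (r : ℝ)) (1 / ((Z : ℝ) ^ 84 * (N : ℝ)))) with hA1
  set A2 := (Hs (Xz Z)).filter (fun H : ℤ => ∃ r : ℕ, 1 ≤ r ∧ r ≤ 2 * N * Z ^ 84 ∧
      Nr (48 * t * (H : ℝ) * (r : ℝ)) ((Z : ℝ) ^ 170 / ((Z : ℝ) ^ 1000 * (N : ℝ)))) with hA2
  set cc : (ℕ × ℤ × (ℕ → ℂ) × ℕ) → Finset ℤ := fun x => (Hs (Xz Z)).filter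
    (fun H : ℤ => Nr (48 * t * (H : ℝ) - ((bb x.1 x.2.2.2 : ℝ) / (x.1 : ℝ) +
      (x.2.1 : ℝ) / (Z : ℝ) ^ 130216)) (1 / (Z : ℝ) ^ 130216)) with hcc
  set T := (Hs (Xz Z)).filter (fun H : ℤ => ∃ ψ ∈ Ψ, (S.card : ℝ) * (Z : ℝ) ^ 31920 <
      ‖∑ μ ∈ S, ψ μ * th N (48 * t * (μ : ℝ) * (H : ℝ))‖) with hT
  have hsub : T ⊆ A1 ∪ (A2 ∪ B.biUnion cc) := by
    intro H hH
    rw [hT, Finset.mem_filter] at hH
    obtain ⟨hHs, ψ, hψ, hlt⟩ := hH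
    by_cases c1 : ∃ r : ℕ, 1 ≤ r ∧ r * Z ^ 84 ≤ N ∧
      Nr (48 * t * (H : ℝ) * (r : ℝ)) (1 / ((Z : ℝ) ^ 84 * (N : ℝ)))
    · exact Finset.mem_union_left _ (Finset.mem_filter.2 ⟨hHs, c1⟩)
    by_cases c2 : ∃ r : ℕ, 1 ≤ r ∧ r ≤ 2 * N * Z ^ 84 ∧
      Nr (48 * t * (H : ℝ) * (r : ℝ)) ((Z : ℝ) ^ 170 / ((Z : ℝ) ^ 1000 * (N : ℝ)))
    · exact Finset.mem_union_right _ (Finset.mem_union_left _ (Finset.mem_filter.2 ⟨hHs, c2⟩))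
    obtain ⟨x, hxB, hx⟩ := cov Z (by omega) N t S Ψ B H ψ hSz hS hΨ hBm c1 c2 hψ hlt
    exact Finset.mem_union_right _ (Finset.mem_union_right _
      (Finset.mem_biUnion.2 ⟨x, hxB, Finset.mem_filter.2 ⟨hHs, hx⟩⟩))
  have hcell : ∀ x ∈ B, ((cc x).card : ℝ) ≤ (Z : ℝ) ^ 15104 := fun x _ =>
    chc Z (by omega) N Q a t _ hpar
  have hbi : ((B.biUnion cc).card : ℝ) ≤ (B.card : ℝ) * (Z : ℝ) ^ 15104 := by
    have e1 : ((B.biUnion cc).card : ℝ) ≤ ∑ x ∈ B, ((cc x).card : ℝ) := by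
      have := Finset.card_biUnion_le (s := B) (t := cc)
      exact_mod_cast this
    refine e1.trans ((Finset.sum_le_sum hcell).trans ?_)
    rw [Finset.sum_const, nsmul_eq_mul]
  have hbi2 : ((B.biUnion cc).card : ℝ) ≤ (Z : ℝ) ^ 126624 := by
    refine hbi.trans ?_
    have : (Z : ℝ) ^ 126624 = (Z : ℝ) ^ 111520 * (Z : ℝ) ^ 15104 := by rw [← pow_add]
    rw [this]
    exact mul_le_mul_of_nonneg_right hB (pow_nonneg hz0.le _)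
  have hcardT : (T.card : ℝ) ≤ (A1.card : ℝ) + ((A2.card : ℝ) + ((B.biUnion cc).card : ℝ)) := by
    have e1 : T.card ≤ A1.card + (A2.card + (B.biUnion cc).card) :=
      (Finset.card_le_card hsub).trans ((Finset.card_union_le _ _).trans
        (Nat.add_le_add_left (Finset.card_union_le _ _) _))
    exact_mod_cast e1
  have hX : (Xz Z : ℝ) = 8 * (Z : ℝ) ^ 127002 := by
    unfold Xz
    rw [Nat.cast_mul, Nat.cast_pow]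
    norm_num
  have h3 : ((B.biUnion cc).card : ℝ) * (3 * (Z : ℝ) ^ 164) ≤ (Xz Z : ℝ) := by
    have e1 : ((B.biUnion cc).card : ℝ) * (3 * (Z : ℝ) ^ 164) ≤
        (Z : ℝ) ^ 126624 * (3 * (Z : ℝ) ^ 164) :=
      mul_le_mul_of_nonneg_right hbi2 (mul_nonneg (by norm_num) (pow_nonneg hz0.le _))
    have e2 : (Z : ℝ) ^ 126624 * (3 * (Z : ℝ) ^ 164) = 3 * (Z : ℝ) ^ 126788 := by
      have : (Z : ℝ) ^ 126788 = (Z : ℝ) ^ 126624 * (Z : ℝ) ^ 164 := by rw [← pow_add]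
      rw [this]
      generalize (Z : ℝ) ^ 126624 = x1
      generalize (Z : ℝ) ^ 164 = x2
      ring
    have e3 : (Z : ℝ) ^ 126788 ≤ (Z : ℝ) ^ 127002 := pow_le_pow_right₀ hz1 (by norm_num)
    have e4 : (0 : ℝ) ≤ (Z : ℝ) ^ 127002 := pow_nonneg hz0.le _
    rw [hX]
    rw [e2] at e1
    linarith
  have h4 : (T.card : ℝ) * (3 * (Z : ℝ) ^ 164) ≤ 3 * (Xz Z : ℝ) := by
    have e0 : (0 : ℝ) ≤ 3 * (Z : ℝ) ^ 164 := mul_nonneg (by norm_num) (pow_nonneg hz0.le _)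
    have e1 := mul_le_mul_of_nonneg_right hcardT e0
    rw [add_mul, add_mul] at e1
    linarith
  linarith

end Pool.Agent.K4W.H17
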