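import Pool.Agent.K4W.StmtsF
import Pool.Agent.K4W.StmtsM

set_option autoImplicit false

namespace Pool.Agent.K4W.H17

open Pool.Agent.Helper69_Weyl (ee W)

theorem mgl (mmn : MmnStmt) : MmnStatement := by
  intro l hl
  refine ⟨((2 * l : ℕ) : ℝ) ^ (2 * l), by positivity, ?_⟩
  intro r P₀ M S v a A₁ A₂ K hr hS hlt hv hA1 hA2 hK h1 h2 h3
  have key := mmn l r M P₀ S v a A₁ A₂ K hr hA2 hK (by
    intro p hp
    refine ⟨(hS p hp).1, (hS p hp).2.1, hv p hp, ?_, ?_, h3 p hp⟩
    · refine le_trans (Finset.sum_le_sum_of_subset_of_nonneg (Finset.filter_subset _ _) ?_)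
        (h1 p hp)
      intros; positivity
    · refine le_trans (Finset.sum_le_sum_of_subset_of_nonneg (Finset.filter_subset _ _) ?_)
        (h2 p hp)
      intros; positivity) hlt
  rw [← mul_assoc] at key
  exact key

end Pool.Agent.K4W.H17
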