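import Mathlib
import Pool.Agent.K4W.StmtsV

set_option autoImplicit false

/-! Row SMO of the squad K4W: the second moment. -/

namespace Pool.Agent.K4W.H17

open Pool.Agent.K4W
open Pool.Agent.VM (Nr)

namespace SmoRow17

theorem mem_Hs {X : ℕ} {H : ℤ} : H ∈ Hs X ↔ |H| ≤ (X : ℤ) ∧ H ≠ 0 := by
  unfold Hs
  rw [Finset.mem_filter, Finset.mem_Icc, abs_le]

theorem kn_nonneg (N : ℕ) (x : ℝ) : 0 ≤ kn N x := by
  unfold kn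
  apply inv_nonneg.2
  exact le_trans (by positivity) (le_max_left _ _)

theorem two_pow_ge : ∀ L : ℕ, 28 ≤ L → 100 * (64000 * (L + 1) + 4) ≤ 2 ^ L := by
  intro L hL
  induction L, hL using Nat.le_induction with
  | base => norm_num
  | succ L hL ih =>
    rw [pow_succ]
    linarith

/-- the number of dyadic steps -/
theorem exJ {Z N : ℕ} (hZ : 2 ^ 28 ≤ Z) (hN : N ≤ 2 * Z ^ 64000) :
    ∃ J : ℕ, 4 * N ≤ 2 ^ J ∧ 100 * (J + 1) ≤ Z := by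
  have hZ0 : Z ≠ 0 := by
    intro h
    rw [h] at hZ
    norm_num at hZ
  refine ⟨64000 * (Nat.log 2 Z + 1) + 3, ?_, ?_⟩
  · have h1 : Z ≤ 2 ^ (Nat.log 2 Z + 1) := (Nat.lt_pow_succ_log_self (by norm_num) Z).le
    have h2 : Z ^ 64000 ≤ (2 ^ (Nat.log 2 Z + 1)) ^ 64000 := Nat.pow_le_pow_left h1 64000
    have h3 : (2 ^ (Nat.log 2 Z + 1)) ^ 64000 = 2 ^ (64000 * (Nat.log 2 Z + 1)) := by
      rw [← pow_mul, Nat.mul_comm]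
    rw [h3] at h2
    rw [pow_add]
    have h4 : (2 : ℕ) ^ 3 = 8 := by norm_num
    rw [h4]
    revert h2 hN
    generalize Z ^ 64000 = A
    generalize 2 ^ (64000 * (Nat.log 2 Z + 1)) = B
    intro h2 hN
    omega
  · have h1 : 28 ≤ Nat.log 2 Z := Nat.le_log_of_pow_le (by norm_num) hZ
    have h2 := two_pow_ge _ h1
    have h3 : 2 ^ Nat.log 2 Z ≤ Z := Nat.pow_log_le_self 2 hZ0
    exact le_trans h2 h3

/-- the sizes -/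
theorem sizes {Z N Q X μ : ℕ} (hZ : 2 ^ 28 ≤ Z) (h1 : Z ^ 64000 ≤ N) (h2 : N ≤ 2 * Z ^ 64000)
    (h3 : Z ^ 111900 ≤ Q) (h4 : Q ≤ Z ^ 144200) (h5 : μ ≤ 2 * Z ^ 1000)
    (h6 : N ^ 2 ≤ X * Z ^ 1000) (h7 : X * Z ^ 1000 ≤ 16 * Z ^ 2 * N ^ 2) :
    8 * N * (96 * μ) ≤ Q ∧ Q ≤ X * (Z * N) ∧ X * (Z * N) ≤ Z ^ 300000 := by
  have hZ1 : 4000 ≤ Z := le_trans (by norm_num) hZ
  have hZp : 0 < Z := by omega
  have hT : 0 < Z ^ 1000 := Nat.pow_pos hZp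
  have e1 : Z ^ 64000 * Z ^ 1000 = Z ^ 65000 := (pow_add Z 64000 1000).symm
  have e2 : Z ^ 1 * Z ^ 65000 = Z ^ 65001 := (pow_add Z 1 65000).symm
  have e3 : Z ^ 65001 ≤ Z ^ 111900 := Nat.pow_le_pow_right hZp (by norm_num)
  have e4 : (Z ^ 64000) ^ 3 = Z ^ 192000 := (pow_mul Z 64000 3).symm
  have e5 : Z ^ 144200 * Z ^ 1000 = Z ^ 145200 := (pow_add Z 144200 1000).symm
  have e6 : Z ^ 145200 ≤ Z ^ 192000 := Nat.pow_le_pow_right hZp (by norm_num)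
  have e7 : Z ^ 4 * Z ^ 192000 = Z ^ 192004 := (pow_add Z 4 192000).symm
  have e8 : Z ^ 192004 ≤ Z ^ 300000 := Nat.pow_le_pow_right hZp (by norm_num)
  rw [pow_one] at e2
  refine ⟨?_, ?_, ?_⟩
  · calc 8 * N * (96 * μ) ≤ 8 * (2 * Z ^ 64000) * (96 * (2 * Z ^ 1000)) :=
          Nat.mul_le_mul (Nat.mul_le_mul_left 8 h2) (Nat.mul_le_mul_left 96 h5)
      _ = 3072 * (Z ^ 64000 * Z ^ 1000) := by ring
      _ = 3072 * Z ^ 65000 := by rw [e1]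
      _ ≤ Z * Z ^ 65000 := Nat.mul_le_mul_right _ (by omega)
      _ = Z ^ 65001 := e2
      _ ≤ Z ^ 111900 := e3
      _ ≤ Q := h3
  · have h8 : Q * Z ^ 1000 ≤ X * (Z * N) * Z ^ 1000 := by
      calc Q * Z ^ 1000 ≤ Z ^ 144200 * Z ^ 1000 := Nat.mul_le_mul_right _ h4
        _ = Z ^ 145200 := e5
        _ ≤ Z ^ 192000 := e6
        _ = (Z ^ 64000) ^ 3 := e4.symm
        _ ≤ N ^ 3 := Nat.pow_le_pow_left h1 3
        _ = N ^ 2 * N := pow_succ N 2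
        _ ≤ X * Z ^ 1000 * N := Nat.mul_le_mul_right _ h6
        _ ≤ X * Z ^ 1000 * (Z * N) := Nat.mul_le_mul_left _ (Nat.le_mul_of_pos_left N hZp)
        _ = X * (Z * N) * Z ^ 1000 := by
          rw [Nat.mul_assoc, Nat.mul_comm (Z ^ 1000), ← Nat.mul_assoc]
    exact Nat.le_of_mul_le_mul_right h8 hT
  · have hN3 : N ^ 3 ≤ 8 * Z ^ 192000 := by
      calc N ^ 3 ≤ (2 * Z ^ 64000) ^ 3 := Nat.pow_le_pow_left h2 3
        _ = 2 ^ 3 * (Z ^ 64000) ^ 3 := mul_pow 2 (Z ^ 64000) 3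
        _ = 8 * Z ^ 192000 := by rw [e4]; norm_num
    calc X * (Z * N) ≤ X * (Z * N) * Z ^ 1000 := Nat.le_mul_of_pos_right _ hT
      _ = X * Z ^ 1000 * (Z * N) := by
          rw [Nat.mul_assoc, Nat.mul_comm (Z * N), ← Nat.mul_assoc]
      _ ≤ 16 * Z ^ 2 * N ^ 2 * (Z * N) := Nat.mul_le_mul_right _ h7
      _ = 16 * Z ^ 3 * N ^ 3 := by ring
      _ ≤ 16 * Z ^ 3 * (8 * Z ^ 192000) := Nat.mul_le_mul_left _ hN3
      _ = 128 * Z ^ 3 * Z ^ 192000 := by ring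
      _ ≤ Z ^ 4 * Z ^ 192000 := by
          apply Nat.mul_le_mul_right
          rw [pow_succ Z 3, Nat.mul_comm]
          exact Nat.mul_le_mul_left _ (by omega)
      _ = Z ^ 192004 := e7
      _ ≤ Z ^ 300000 := e8

/-- the count -/
theorem count (cqb : CqbStmt) {N Q Q' m Y : ℕ} {a' : ℤ} {θ : ℝ} (hN : 1 ≤ N) (hQ' : 1 ≤ Q')
    (hQQ : Q' ≤ Q) (hQm : Q ≤ m * Q') (hg : Int.gcd a' (Q' : ℤ) = 1)
    (hθ : |θ - (a' : ℝ) / (Q' : ℝ)| * (Q' : ℝ) ≤ (m : ℝ) / (Q : ℝ)) (hm : 8 * N * m ≤ Q)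
    (hY : Q ≤ Y) (η : ℝ) (hη : 1 / (8 * (N : ℝ)) ≤ η) (A' : Finset ℤ)
    (hA' : ∀ n ∈ A', |n| ≤ (Y : ℤ) ∧ Nr (θ * (n : ℝ)) η) :
    (A'.card : ℝ) ≤ 20 * (Y : ℝ) * η := by
  have hNr : (0 : ℝ) < (N : ℝ) := by exact_mod_cast hN
  have hQ'r : (0 : ℝ) < (Q' : ℝ) := by exact_mod_cast hQ'
  have hQr : (0 : ℝ) < (Q : ℝ) := by exact_mod_cast (lt_of_lt_of_le hQ' hQQ)
  have hη0 : 0 < η := lt_of_lt_of_le (by positivity) hη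
  have hmr : 8 * (N : ℝ) * (m : ℝ) ≤ (Q : ℝ) := by exact_mod_cast hm
  have hQmr : (Q : ℝ) ≤ (m : ℝ) * (Q' : ℝ) := by exact_mod_cast hQm
  have hYr : (Q : ℝ) ≤ (Y : ℝ) := by exact_mod_cast hY
  have hQQr : (Q' : ℝ) ≤ (Q : ℝ) := by exact_mod_cast hQQ
  have hm0 : (0 : ℝ) < (m : ℝ) := by
    by_contra h
    have h1 : (m : ℝ) ≤ 0 := le_of_not_gt h
    nlinarith
  have hδ : (m : ℝ) / (Q : ℝ) ≤ η := by
    refine le_trans ?_ hη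
    rw [div_le_div_iff₀ hQr (by positivity)]
    linarith
  have h1 : 1 ≤ η * (Q' : ℝ) := by
    have h2 : 1 / (8 * (N : ℝ)) * (Q' : ℝ) ≤ η * (Q' : ℝ) :=
      mul_le_mul_of_nonneg_right hη hQ'r.le
    refine le_trans ?_ h2
    rw [one_div, inv_mul_eq_div, le_div_iff₀ (by positivity)]
    have h3 : 8 * (N : ℝ) * (m : ℝ) ≤ (m : ℝ) * (Q' : ℝ) := le_trans hmr hQmr
    nlinarith
  have h2 := cqb θ ((m : ℝ) / (Q : ℝ)) η a' Q' Y hQ' hg hθ hη0.le A' hA'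
  have h3 : 2 * (η + (m : ℝ) / (Q : ℝ)) * (Q' : ℝ) + 1 ≤ 5 * (η * (Q' : ℝ)) := by
    have : (m : ℝ) / (Q : ℝ) * (Q' : ℝ) ≤ η * (Q' : ℝ) := mul_le_mul_of_nonneg_right hδ hQ'r.le
    nlinarith
  have h4 : 2 * (Y : ℝ) / (Q' : ℝ) + 2 ≤ 4 * (Y : ℝ) / (Q' : ℝ) := by
    rw [div_add' _ _ _ hQ'r.ne', div_le_div_iff_of_pos_right hQ'r]
    linarith
  have hY0 : 0 ≤ (Y : ℝ) := Nat.cast_nonneg _
  calc (A'.card : ℝ) ≤ (2 * (Y : ℝ) / (Q' : ℝ) + 2) *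
        (2 * (η + (m : ℝ) / (Q : ℝ)) * (Q' : ℝ) + 1) := h2
    _ ≤ (4 * (Y : ℝ) / (Q' : ℝ)) * (5 * (η * (Q' : ℝ))) := by
        apply mul_le_mul h4 h3 (by positivity) (by positivity)
    _ = 20 * (Y : ℝ) * η := by
        field_simp
        ring

end SmoRow17

open SmoRow17

/-- **SMO** -/
theorem smo (shd : ShdStmt) (dvs : DvbStmt) (cqb : CqbStmt) (red : RedStmt) (dya : DyaStmt) :
    SmoStmt := by
  obtain ⟨Z₁, hshd⟩ := shd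
  obtain ⟨Z₂, hdvs⟩ := dvs
  refine ⟨max (max Z₁ Z₂) (2 ^ 28), ?_⟩
  intro Z hZ N Q a t hpar μ hμ1 hμ2 X hX1 hX2
  have hZ1 : Z₁ ≤ Z := le_trans (le_trans (le_max_left _ _) (le_max_left _ _)) hZ
  have hZ2 : Z₂ ≤ Z := le_trans (le_trans (le_max_right _ _) (le_max_left _ _)) hZ
  have hZ3 : 2 ^ 28 ≤ Z := le_trans (le_max_right _ _) hZ
  obtain ⟨p1, p2, p3, p4, p5, p6⟩ := hpar
  obtain ⟨s1, s2, s3⟩ := sizes hZ3 p1 p2 p3 p4 hμ2 hX1 hX2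
  obtain ⟨J, hJ1, hJ2⟩ := exJ hZ3 p2
  have hZp : 0 < Z := lt_of_lt_of_le (by norm_num) hZ3
  have hN1 : 1 ≤ N := le_trans (Nat.pow_pos hZp) p1
  have hQ1 : 1 ≤ Q := le_trans (Nat.pow_pos hZp) p3
  have hμ0 : 1 ≤ μ := Nat.one_le_iff_ne_zero.2 (fun h => by
    rw [h] at hμ1
    exact Nat.not_lt_zero _ hμ1)
  obtain ⟨a', Q', r1, r2, r3, r4, r5⟩ := red (96 * μ) Q a t (by omega) hQ1 p5 p6
  have hS := hshd Z hZ1 N p1 p2 X (48 * t * (μ : ℝ))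
  -- the sum over the products
  set θ : ℝ := ((96 * μ : ℕ) : ℝ) * t with hθ
  set Y : ℤ → ℝ := fun n => kn N (θ * (n : ℝ)) with hY
  have hD := hdvs Z hZ2 (Hs X ×ˢ Hs (Z * N)) (X * (Z * N)) s3 (by
    intro p hp
    rw [Finset.mem_product, mem_Hs, mem_Hs] at hp
    obtain ⟨⟨q1, q2⟩, q3, q4⟩ := hp
    refine ⟨mul_ne_zero q2 q4, ?_⟩
    rw [abs_mul]
    push_cast
    push_cast at q3
    exact mul_le_mul q1 q3 (abs_nonneg _) (Nat.cast_nonneg _)) Y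
    (fun n => kn_nonneg N _)
  rw [Finset.sum_product] at hD
  have hdd : ∑ n ∈ Hs (X * (Z * N)), Y n ≤
      2 * (20 * ((X * (Z * N) : ℕ) : ℝ)) * ((J : ℝ) + 1) := by
    apply dya N J θ (20 * ((X * (Z * N) : ℕ) : ℝ)) (Hs (X * (Z * N))) hN1 hJ1
    intro η hη A' hA' hA''
    apply count cqb hN1 r1 r2 r3 r4 r5 s1 s2 η hη A'
    intro n hn
    exact ⟨(mem_Hs.1 (hA' hn)).1, hA'' n hn⟩
  have hsum : ∑ H ∈ Hs X, ∑ d ∈ Hs (Z * N),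
      kn N (2 * (48 * t * (μ : ℝ)) * ((H : ℝ) * (d : ℝ))) =
      ∑ H ∈ Hs X, ∑ d ∈ Hs (Z * N), Y (H * d) := by
    apply Finset.sum_congr rfl
    intro H _
    apply Finset.sum_congr rfl
    intro d _
    simp only [hY, hθ]
    congr 1
    push_cast
    ring
  rw [hsum] at hS
  refine le_trans hS ?_
  have hD' : 100 * ∑ H ∈ Hs X, ∑ d ∈ Hs (Z * N), Y (H * d) ≤
      (Z : ℝ) * ∑ n ∈ Hs (X * (Z * N)), Y n := hD
  revert hD' hdd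
  generalize ∑ H ∈ Hs X, ∑ d ∈ Hs (Z * N), Y (H * d) = S1
  generalize ∑ n ∈ Hs (X * (Z * N)), Y n = S2
  intro hdd hD'
  have hZr : (4 : ℝ) ≤ (Z : ℝ) := by
    have : 4 ≤ Z := le_trans (by norm_num) hZ3
    exact_mod_cast this
  have hJr : 100 * ((J : ℝ) + 1) ≤ (Z : ℝ) := by exact_mod_cast hJ2
  have hNX : (0 : ℝ) ≤ (N : ℝ) * (X : ℝ) := by positivity
  have e : ((X * (Z * N) : ℕ) : ℝ) = (N : ℝ) * (X : ℝ) * (Z : ℝ) := by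
    push_cast
    ring
  rw [e] at hdd
  have k1 : S2 ≤ 2 / 5 * ((N : ℝ) * (X : ℝ) * (Z : ℝ)) * (Z : ℝ) := by
    have : (0 : ℝ) ≤ (N : ℝ) * (X : ℝ) * (Z : ℝ) := by positivity
    nlinarith
  have k2 : 100 * S1 ≤ (Z : ℝ) * (2 / 5 * ((N : ℝ) * (X : ℝ) * (Z : ℝ)) * (Z : ℝ)) :=
    le_trans hD' (mul_le_mul_of_nonneg_left k1 (by positivity))
  have k3 : (64 : ℝ) ≤ (Z : ℝ) ^ 3 := by
    have := pow_le_pow_left₀ (by norm_num : (0 : ℝ) ≤ 4) hZr 3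
    norm_num at this
    exact this
  have k4 : 64 * ((N : ℝ) * (X : ℝ)) ≤ (Z : ℝ) ^ 3 * ((N : ℝ) * (X : ℝ)) :=
    mul_le_mul_of_nonneg_right k3 hNX
  nlinarith

end Pool.Agent.K4W.H17
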