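import Pool.Agent.K4W.StmtsF
import Pool.Agent.K4W.StmtsU

set_option autoImplicit false

namespace Pool.Agent.K4W.H17

open Pool.Agent.Helper69_Weyl (ee W)

theorem umn (h : UmnStmt) : UmnStatement := by
  obtain ⟨Z₀, h⟩ := h
  exact ⟨Z₀, fun Z hZ N t ξ hN => h Z hZ N t ξ hN.1 hN.2⟩

theorem ufn (h : UfnStmt) : UfnStatement := by
  obtain ⟨C, Z₀, hC, h⟩ := h
  refine ⟨C, Z₀ + 1, hC, fun Z hZ N t S hN hS => ?_⟩
  have hZ1 : 1 ≤ Z := by omega
  have h1 : 1 ≤ Z ^ 64000 := Nat.one_le_pow _ _ hZ1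
  have h2 : 1 ≤ N := le_trans h1 hN.1
  have := h Z (by omega) N t S h2 hN.2 hS
  refine this.trans (le_of_eq ?_)
  congr 2
  refine Finset.sum_congr rfl fun p _ => ?_
  congr 1
  refine Finset.sum_congr rfl fun μ _ => ?_
  congr 2
  push_cast
  ring

end Pool.Agent.K4W.H17
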