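import Mathlib
import Pool.Agent.Helper10_K4W.AGS
import Pool.Agent.Helper10_K4W.CRN
import Pool.Agent.Helper10_K4W.FAC
import Pool.Agent.Helper10_K4W.MCO
import Pool.Agent.Helper10_K4W.UBC
import Pool.Agent.Helper14_K4W.WEX
import Pool.Agent.Helper14_K4W.WPT
import Pool.Agent.Helper16_K4W.GML
import Pool.Agent.Helper17_K4W.EXC
import Pool.Agent.Helper17_K4W.MGL
import Pool.Agent.Helper17_K4W.SMO
import Pool.Agent.Helper17_K4W.UGL
import Pool.Agent.Helper17_K4W.WRT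
import Pool.Agent.Helper19_K4W.LIP
import Pool.Agent.Helper21_K4W.SZS
import Pool.Agent.Helper21_K4W.SZZ
import Pool.Agent.Helper23_K4W.GRD
import Pool.Agent.Helper23_K4W.YSM
import Pool.Agent.Helper24_K4W.AHU
import Pool.Agent.Helper24_K4W.AMJ
import Pool.Agent.Helper24_K4W.GUN
import Pool.Agent.Helper24_K4W.UEX
import Pool.Agent.Helper24_K4W.WAO
import Pool.Agent.Helper24_K4W.WCH
import Pool.Agent.Helper24_K4W.WDB
import Pool.Agent.Helper26_K4W.CHC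
import Pool.Agent.Helper27_K4W.APO
import Pool.Agent.Helper27_K4W.LAT
import Pool.Agent.Helper27_K4W.PRG
import Pool.Agent.Helper27_K4W.RED
import Pool.Agent.Helper27_K4W.UGA
import Pool.Agent.Helper28_K4W.GSC
import Pool.Agent.Helper2_K4W.TRV
import Pool.Agent.Helper31_K4W.AVD
import Pool.Agent.Helper33_K4W.WFB
import Pool.Agent.Helper34_K4W.FIN
import Pool.Agent.Helper34_K4W.WRL
import Pool.Agent.Helper38_K4W.UPO
import Pool.Agent.Helper38_K4W.WLS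
import Pool.Agent.Helper38_K4W.WVA
import Pool.Agent.Helper39_K4W.ABL
import Pool.Agent.Helper39_K4W.ACS
import Pool.Agent.Helper39_K4W.ASC
import Pool.Agent.Helper40_K4W.GPR
import Pool.Agent.Helper40_K4W.PFZ
import Pool.Agent.Helper41_K4W.AFF
import Pool.Agent.Helper41_K4W.CSP
import Pool.Agent.Helper41_K4W.FOU
import Pool.Agent.Helper41_K4W.UQI
import Pool.Agent.Helper42_K4W.UXA
import Pool.Agent.Helper43_K4W.GSU
import Pool.Agent.Helper43_K4W.UOU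
import Pool.Agent.Helper43_K4W.WST
import Pool.Agent.Helper44_K4W.MCT
import Pool.Agent.Helper44_K4W.PMN
import Pool.Agent.Helper44_K4W.PRZ
import Pool.Agent.Helper44_K4W.UBA
import Pool.Agent.Helper45_K4W.UPT
import Pool.Agent.Helper47_K4W.BCD
import Pool.Agent.Helper47_K4W.PTB
import Pool.Agent.Helper47_K4W.UBR
import Pool.Agent.Helper47_K4W.UTH
import Pool.Agent.Helper48_K4W.CL2
import Pool.Agent.Helper48_K4W.GQ2
import Pool.Agent.Helper48_K4W.UCS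
import Pool.Agent.Helper49_K4W.APA
import Pool.Agent.Helper51_K4W.APP
import Pool.Agent.Helper51_K4W.VDV
import Pool.Agent.Helper59_K4W.DVB
import Pool.Agent.Helper59_K4W.RZB
import Pool.Agent.Helper60_K4W.CQB
import Pool.Agent.Helper60_K4W.MSQ
import Pool.Agent.Helper62_K4W.DVS
import Pool.Agent.Helper62_K4W.LPS
import Pool.Agent.Helper62_K4W.MPB
import Pool.Agent.Helper62_K4W.PSL
import Pool.Agent.Helper62_K4W.RDH
import Pool.Agent.Helper62_K4W.WDG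
import Pool.Agent.Helper64_K4W.COV
import Pool.Agent.Helper64_K4W.GAB
import Pool.Agent.Helper64_K4W.MMN
import Pool.Agent.Helper65_K4W.DVZ
import Pool.Agent.Helper65_K4W.MEX
import Pool.Agent.Helper65_K4W.UNM
import Pool.Agent.Helper65_K4W.WEI
import Pool.Agent.Helper66_K4W.USM
import Pool.Agent.Helper66_K4W.WMU
import Pool.Agent.Helper67_K4W.UEP
import Pool.Agent.Helper68_K4W.GEO
import Pool.Agent.Helper68_K4W.THS
import Pool.Agent.Helper70_K4W.UMN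
import Pool.Agent.Helper70_K4W.VAD
import Pool.Agent.Helper76_K4W.WLP
import Pool.Agent.Helper76_K4W.WML
import Pool.Agent.Helper76_K4W.WMN
import Pool.Agent.Helper76_K4W.WMP
import Pool.Agent.Helper76_K4W.WPW
import Pool.Agent.Helper77_K4W.CSQ
import Pool.Agent.Helper77_K4W.LPZ
import Pool.Agent.Helper77_K4W.MPR
import Pool.Agent.Helper77_K4W.MZD
import Pool.Agent.Helper80_K4W.DYA
import Pool.Agent.Helper81_K4W.ASP
import Pool.Agent.Helper81_K4W.CAB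
import Pool.Agent.Helper81_K4W.MFA
import Pool.Agent.Helper81_K4W.TRM
import Pool.Agent.Helper82_K4W.C48
import Pool.Agent.Helper82_K4W.MFC
import Pool.Agent.Helper85_K4W.URE
import Pool.Agent.Helper88_K4W.POI
import Pool.Agent.Helper88_K4W.UFN
import Pool.Agent.Helper89_K4W.UBB
import Pool.Agent.Helper8_K4W.WFI
import Pool.Agent.Helper90_K4W.BDU
import Pool.Agent.Helper91_K4W.UGB
import Pool.Agent.Helper92_K4W.AGC
import Pool.Agent.Helper94_K4W.AWE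
import Pool.Agent.Helper94_K4W.GSM
import Pool.Agent.Helper94_K4W.MFP
import Pool.Agent.Helper95_K4W.SHD
import Pool.Agent.Helper95_K4W.UCU
import Pool.Agent.Helper95_K4W.WNT
import Pool.Agent.Helper97_K4W.CL1
import Pool.Agent.Helper97_K4W.UTR
import Pool.Agent.Helper98_K4W.MTP
import Pool.Agent.Helper98_K4W.PER
import Pool.Agent.VM.Major

set_option autoImplicit false

/-! Assembly of the squad K4W: `H_4(1/8 + 1/4000)` (generated). -/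

namespace Pool.Agent.K4W.Fin

theorem t_AgsStmt : AgsStmt :=
  Pool.Agent.K4W.H10.ags
theorem t_ApoStmt : ApoStmt :=
  Pool.Agent.K4W.H27.apo t_AgsStmt
theorem t_WmnStmt : WmnStmt :=
  Pool.Agent.K4W.H76.wmn
theorem t_WvaStmt : WvaStmt :=
  Pool.Agent.K4W.H38.wva t_WmnStmt
theorem t_WaoStmt : WaoStmt :=
  Pool.Agent.K4W.H24.wao
theorem t_WdgStmt : WdgStmt :=
  Pool.Agent.K4W.H62.wdg t_WmnStmt
theorem t_WmuStmt : WmuStmt :=
  Pool.Agent.K4W.H66.wmu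
theorem t_WmlStmt : WmlStmt :=
  Pool.Agent.K4W.H76.wml t_WmuStmt t_WmnStmt
theorem t_WrlStmt : WrlStmt :=
  Pool.Agent.K4W.H34.wrl t_WdgStmt t_WmlStmt
theorem t_WlpStmt : WlpStmt :=
  Pool.Agent.K4W.H76.wlp t_WmuStmt
theorem t_WmpStmt : WmpStmt :=
  Pool.Agent.K4W.H76.wmp
theorem t_WfbStmt : WfbStmt :=
  Pool.Agent.K4W.H33.wfb
theorem t_WrtStmt : WrtStmt :=
  Pool.Agent.K4W.H17.wrt t_WmnStmt
theorem t_WexStmt : WexStmt :=
  Pool.Agent.K4W.H14.wex t_WmuStmt t_WlpStmt t_WmpStmt t_WmnStmt t_WfbStmt t_WrtStmt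
theorem t_WchStmt : WchStmt :=
  Pool.Agent.K4W.H24.wch
theorem t_WdbStmt : WdbStmt :=
  Pool.Agent.K4W.H24.wdb
theorem t_WlsStmt : WlsStmt :=
  Pool.Agent.K4W.H38.wls
theorem t_WptStmt : WptStmt :=
  Pool.Agent.K4W.H14.wpt t_WchStmt t_WdbStmt t_WlsStmt
theorem t_WstStmt : WstStmt :=
  Pool.Agent.K4W.H43.wst t_WptStmt
theorem t_WntStmt : WntStmt :=
  Pool.Agent.K4W.H95.wnt
theorem t_WpwStmt : WpwStmt :=
  Pool.Agent.K4W.H76.wpw
theorem t_WfiStmt : WfiStmt :=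
  Pool.Agent.K4W.H8.wfi t_WvaStmt t_WaoStmt t_WrlStmt t_WexStmt t_WstStmt t_WntStmt t_WpwStmt
theorem t_WeilStmt : WeilStmt :=
  Pool.Agent.K4W.H65.wei t_WfiStmt
theorem t_AweStmt : AweStmt :=
  Pool.Agent.K4W.H94.awe t_WeilStmt
theorem t_AppStmt : AppStmt :=
  Pool.Agent.K4W.H51.app t_AweStmt t_ApoStmt
theorem t_AscStmt : AscStmt :=
  Pool.Agent.K4W.H39.asc t_AppStmt
theorem t_AhuStmt : AhuStmt :=
  Pool.Agent.K4W.H24.ahu
theorem t_AvdStmt : AvdStmt :=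
  Pool.Agent.K4W.H31.avd
theorem t_AgcStmt : AgcStmt :=
  Pool.Agent.K4W.H92.agc
theorem t_AspStmt : AspStmt :=
  Pool.Agent.K4W.H81.asp
theorem t_AblStmt : AblStmt :=
  Pool.Agent.K4W.H39.abl t_AscStmt t_AhuStmt t_AvdStmt t_AgcStmt t_AspStmt
theorem t_AmjStmt : AmjStmt :=
  Pool.Agent.K4W.H24.amj t_AblStmt
theorem t_AcsStmt : AcsStmt :=
  Pool.Agent.K4W.H39.acs t_AmjStmt
theorem t_ApaStmt : ApaStmt :=
  Pool.Agent.K4W.H49.apa
theorem t_AffStmt : AffStmt :=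
  Pool.Agent.K4W.H41.aff
theorem t_PerStmt : PerStmt :=
  Pool.Agent.K4W.H98.per
theorem t_CsqStmt : CsqStmt :=
  Pool.Agent.K4W.H77.csq t_PerStmt
theorem t_GabStmt : GabStmt :=
  Pool.Agent.K4W.H64.gab t_PerStmt t_CsqStmt
theorem t_Gq2Stmt : Gq2Stmt :=
  Pool.Agent.K4W.H48.gq2
theorem t_GprStmt : GprStmt :=
  Pool.Agent.K4W.H40.gpr
theorem t_GmlStmt : GmlStmt :=
  Pool.Agent.K4W.H16.gml t_Gq2Stmt t_GprStmt
theorem t_PrgStmt : PrgStmt :=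
  Pool.Agent.K4W.H27.prg
theorem t_GscStmt : GscStmt :=
  Pool.Agent.K4W.H28.gsc
theorem t_PoiStmt : PoiStmt :=
  Pool.Agent.K4W.H88.poi t_PrgStmt t_GscStmt
theorem t_FacStmt : FacStmt :=
  Pool.Agent.K4W.H10.fac t_PoiStmt t_CsqStmt
theorem t_GsmStmt : GsmStmt :=
  Pool.Agent.K4W.H94.gsm
theorem t_CabStmt : CabStmt :=
  Pool.Agent.K4W.H81.cab
theorem t_SzsStmt : SzsStmt :=
  Pool.Agent.K4W.H21.szs t_GsmStmt t_CabStmt
theorem t_TrvStmt : TrvStmt :=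
  Pool.Agent.K4W.H2.trv t_FacStmt t_GabStmt t_SzsStmt
theorem t_TrmStmt : TrmStmt :=
  Pool.Agent.K4W.H81.trm t_TrvStmt
theorem t_FouStmt : FouStmt :=
  Pool.Agent.K4W.H41.fou
theorem t_LipStmt : LipStmt :=
  Pool.Agent.K4W.H19.lip t_FouStmt
theorem t_GunStmt : GunStmt :=
  Pool.Agent.K4W.H24.gun t_GmlStmt t_GabStmt
theorem t_PmnStmt : PmnStmt :=
  Pool.Agent.K4W.H44.pmn t_TrmStmt t_FacStmt t_GunStmt t_SzsStmt
theorem t_RzbStmt : RzbStmt :=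
  Pool.Agent.K4W.H59.rzb
theorem t_SzzStmt : SzzStmt :=
  Pool.Agent.K4W.H21.szz t_RzbStmt t_SzsStmt
theorem t_DvsStmt : DvsStmt :=
  Pool.Agent.K4W.H62.dvs
theorem t_PfzStmt : PfzStmt :=
  Pool.Agent.K4W.H40.pfz t_PmnStmt t_RzbStmt t_DvsStmt
theorem t_LpsStmt : LpsStmt :=
  Pool.Agent.K4W.H62.lps t_LipStmt t_GunStmt
theorem t_UgaStmt : UgaStmt :=
  Pool.Agent.K4W.H27.uga
theorem t_UgbStmt : UgbStmt :=
  Pool.Agent.K4W.H91.ugb t_UgaStmt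
theorem t_UsmStmt : UsmStmt :=
  Pool.Agent.K4W.H66.usm t_UgaStmt
theorem t_UreStmt : UreStmt :=
  Pool.Agent.K4W.H85.ure
theorem t_UtrStmt : UtrStmt :=
  Pool.Agent.K4W.H97.utr
theorem t_UxaStmt : UxaStmt :=
  Pool.Agent.K4W.H42.uxa t_UreStmt t_UtrStmt
theorem t_UexStmt : UexStmt :=
  Pool.Agent.K4W.H24.uex t_UtrStmt t_UxaStmt
theorem t_UcsStmt : UcsStmt :=
  Pool.Agent.K4W.H48.ucs t_UreStmt t_UexStmt
theorem t_UpoStmt : UpoStmt :=
  Pool.Agent.K4W.H38.upo t_UexStmt t_UcsStmt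
theorem t_UqiStmt : UqiStmt :=
  Pool.Agent.K4W.H41.uqi
theorem t_UthStmt : UthStmt :=
  Pool.Agent.K4W.H47.uth t_UgaStmt
theorem t_UepStmt : UepStmt :=
  Pool.Agent.K4W.H67.uep t_UgaStmt t_UsmStmt t_UexStmt t_UqiStmt t_UthStmt
theorem t_UouStmt : UouStmt :=
  Pool.Agent.K4W.H43.uou t_UgaStmt t_UgbStmt
theorem t_UnmStmt : UnmStmt :=
  Pool.Agent.K4W.H65.unm
theorem t_UfnStmt : UfnStmt :=
  Pool.Agent.K4W.H88.ufn t_UsmStmt t_UpoStmt t_UepStmt t_UouStmt t_UnmStmt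
theorem t_UptStmt : UptStmt :=
  Pool.Agent.K4W.H45.upt t_UgbStmt t_UsmStmt
theorem t_UcuStmt : UcuStmt :=
  Pool.Agent.K4W.H95.ucu t_UsmStmt t_UptStmt t_UnmStmt
theorem t_UbaStmt : UbaStmt :=
  Pool.Agent.K4W.H44.uba
theorem t_UbbStmt : UbbStmt :=
  Pool.Agent.K4W.H89.ubb t_UgaStmt t_UsmStmt
theorem t_UbcStmt : UbcStmt :=
  Pool.Agent.K4W.H10.ubc t_UsmStmt t_UexStmt
theorem t_UbrStmt : UbrStmt :=
  Pool.Agent.K4W.H47.ubr t_UgbStmt t_UsmStmt t_UnmStmt t_UbaStmt t_UbbStmt t_UbcStmt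
theorem t_UmnStmt : UmnStmt :=
  Pool.Agent.K4W.H70.umn t_UcuStmt t_UbrStmt
theorem t_MexStmt : MexStmt :=
  Pool.Agent.K4W.H65.mex
theorem t_MzdStmt : MzdStmt :=
  Pool.Agent.K4W.H77.mzd
theorem t_MfpStmt : MfpStmt :=
  Pool.Agent.K4W.H94.mfp
theorem t_MsqStmt : MsqStmt :=
  Pool.Agent.K4W.H60.msq
theorem t_McoStmt : McoStmt :=
  Pool.Agent.K4W.H10.mco
theorem t_MpbStmt : MpbStmt :=
  Pool.Agent.K4W.H62.mpb t_MsqStmt
theorem t_MfcStmt : MfcStmt :=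
  Pool.Agent.K4W.H82.mfc t_McoStmt t_MpbStmt
theorem t_MfaStmt : MfaStmt :=
  Pool.Agent.K4W.H81.mfa
theorem t_MprStmt : MprStmt :=
  Pool.Agent.K4W.H77.mpr
theorem t_MtpStmt : MtpStmt :=
  Pool.Agent.K4W.H98.mtp t_MzdStmt t_MfpStmt t_MfcStmt t_MfaStmt t_MprStmt
theorem t_MctStmt : MctStmt :=
  Pool.Agent.K4W.H44.mct
theorem t_MmnStmt : MmnStmt :=
  Pool.Agent.K4W.H64.mmn t_MexStmt t_MtpStmt t_MctStmt
theorem t_MmnStatement : MmnStatement :=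
  Pool.Agent.K4W.H17.mgl t_MmnStmt
theorem t_GsuStmt : GsuStmt :=
  Pool.Agent.K4W.H43.gsu
theorem t_GeoStmt : GeoStmt :=
  Pool.Agent.K4W.H68.geo t_GsuStmt
theorem t_ThsStmt : ThsStmt :=
  Pool.Agent.K4W.H68.ths t_GsuStmt t_GeoStmt
theorem t_ShdStmt : ShdStmt :=
  Pool.Agent.K4W.H95.shd t_GsuStmt t_ThsStmt
theorem t_DvbStmt : DvbStmt :=
  Pool.Agent.K4W.H59.dvb
theorem t_VdvStmt : VdvStmt :=
  Pool.Agent.K4W.H51.vdv t_DvbStmt
theorem t_CqbStmt : CqbStmt :=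
  Pool.Agent.K4W.H60.cqb
theorem t_RedStmt : RedStmt :=
  Pool.Agent.K4W.H27.red
theorem t_DyaStmt : DyaStmt :=
  Pool.Agent.K4W.H80.dya
theorem t_SmoStmt : SmoStmt :=
  Pool.Agent.K4W.H17.smo t_ShdStmt t_DvbStmt t_CqbStmt t_RedStmt t_DyaStmt
theorem t_PslStmt : PslStmt :=
  Pool.Agent.K4W.H62.psl
theorem t_GrdStmt : GrdStmt :=
  Pool.Agent.K4W.H23.grd t_PslStmt
theorem t_LatStmt : LatStmt :=
  Pool.Agent.K4W.H27.lat
theorem t_DvzStmt : DvzStmt :=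
  Pool.Agent.K4W.H65.dvz
theorem t_C48Stmt : C48Stmt :=
  Pool.Agent.K4W.H82.c48
theorem t_CspStmt : CspStmt :=
  Pool.Agent.K4W.H41.csp t_C48Stmt t_DvzStmt
theorem t_Cl1Stmt : Cl1Stmt :=
  Pool.Agent.K4W.H97.cl1 t_CspStmt
theorem t_Cl2Stmt : Cl2Stmt :=
  Pool.Agent.K4W.H48.cl2 t_CspStmt
theorem t_ChcStmt : ChcStmt :=
  Pool.Agent.K4W.H26.chc t_C48Stmt
theorem t_RdhStmt : RdhStmt :=
  Pool.Agent.K4W.H62.rdh t_LatStmt
theorem t_CrnStmt : CrnStmt :=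
  Pool.Agent.K4W.H10.crn
theorem t_LpzStmt : LpzStmt :=
  Pool.Agent.K4W.H77.lpz t_LpsStmt
theorem t_BduStmt : BduStmt :=
  Pool.Agent.K4W.H90.bdu t_MmnStatement t_SzzStmt t_GunStmt
theorem t_BcdStmt : BcdStmt :=
  Pool.Agent.K4W.H47.bcd t_BduStmt
theorem t_CovStmt : CovStmt :=
  Pool.Agent.K4W.H64.cov t_RdhStmt t_CrnStmt t_LpzStmt t_PfzStmt
theorem t_V1Statement : V1Statement :=
  Pool.Agent.K4W.H70.v1 t_SmoStmt
theorem t_ExcStmt : ExcStmt :=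
  Pool.Agent.K4W.H17.exc t_Cl1Stmt t_Cl2Stmt t_ChcStmt t_BcdStmt t_CovStmt
theorem t_YsmStmt : YsmStmt :=
  Pool.Agent.K4W.H23.ysm t_V1Statement t_ExcStmt
theorem t_PrzStmt : PrzStmt :=
  Pool.Agent.K4W.H44.prz
theorem t_V2Statement : V2Statement :=
  Pool.Agent.K4W.H70.v2 t_VdvStmt
theorem t_V3Statement : V3Statement :=
  Pool.Agent.K4W.H70.v3 t_GrdStmt
theorem t_UmnStatement : UmnStatement :=
  Pool.Agent.K4W.H17.umn t_UmnStmt
theorem t_UfnStatement : UfnStatement :=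
  Pool.Agent.K4W.H17.ufn t_UfnStmt
theorem t_PtbStmt : PtbStmt :=
  Pool.Agent.K4W.H47.ptb t_PrzStmt t_V2Statement t_V3Statement t_UmnStatement t_UfnStatement t_YsmStmt
theorem t_FinalStmt : FinalStmt :=
  Pool.Agent.K4W.H34.final

end Pool.Agent.K4W.Fin
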