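import Mathlib
import Pool.Agent.Helper17_K4W.Fin

set_option autoImplicit false

/-! The full form of the theorem for quartic Weyl sums. -/

namespace Pool.Agent.K4W

open Pool.Agent.Helper69_Weyl (ee W)

/-- the hypothesis `H_4(1 / 8 + 1 / 4000)`, in the short form -/
theorem fin4 : FinStmt := Fin.t_FinalStmt (Fin.t_ApaStmt Fin.t_AmjStmt) Fin.t_PtbStmt

/-- the full form for quartic sums -/
theorem full4 : VM.FfaStmt 4 (1 / 8 + 1 / 4000) :=
  VM.ffa 4 (by norm_num) _ (VM.maj 4 (by norm_num)) (Fin.t_AffStmt Fin.t_AcsStmt Fin.t_PtbStmt)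

end Pool.Agent.K4W
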