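import Pool.Agent.K4W.StmtsW

set_option autoImplicit false

namespace Pool.Agent.K4W.H17

open Polynomial

theorem wrt (wmn : WmnStmt) : WrtStmt := by
  classical
  intro p _ K _ _ _ r e hr hr1 her P hP
  unfold irr at hP
  rw [Finset.mem_filter, wmn] at hP
  obtain ⟨⟨hmon, hdeg⟩, hirr⟩ := hP
  have hcardK : Fintype.card K = p ^ r := by
    have h := Module.card_eq_pow_finrank (K := ZMod p) (V := K)
    rw [ZMod.card, hr] at h
    exact h
  have hdvd : P ∣ X ^ (p ^ r) - X := by
    have h := (Irreducible.natDegree_dvd_iff_dvd_X_pow_card_pow_sub_X (k := ZMod p) (f := P) hirr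
      (n := r)).1 (by rw [hdeg]; exact her)
    rwa [Nat.card_eq_fintype_card, ZMod.card] at h
  have hdvdK : P.map (algebraMap (ZMod p) K) ∣ X ^ (Fintype.card K) - X := by
    obtain ⟨Q, hQ⟩ := hdvd
    refine ⟨Q.map (algebraMap (ZMod p) K), ?_⟩
    rw [← Polynomial.map_mul, ← hQ, hcardK]
    simp
  have hne : (X ^ (Fintype.card K) - X : K[X]) ≠ 0 :=
    FiniteField.X_pow_card_sub_X_ne_zero K Fintype.one_lt_card
  have hroots : (X ^ (Fintype.card K) - X : K[X]).roots = Finset.univ.val :=
    FiniteField.roots_X_pow_card_sub_X K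
  have hsplit : (X ^ (Fintype.card K) - X : K[X]).Splits := by
    rw [Polynomial.splits_iff_card_roots, hroots,
      FiniteField.X_pow_card_sub_X_natDegree_eq K Fintype.one_lt_card]
    rfl
  have hPsplit : (P.map (algebraMap (ZMod p) K)).Splits :=
    hsplit.of_dvd hne hdvdK
  have hle : (P.map (algebraMap (ZMod p) K)).roots ≤ Finset.univ.val := by
    rw [← hroots]
    exact Polynomial.roots.le_of_dvd hne hdvdK
  have hnodup : (P.map (algebraMap (ZMod p) K)).roots.Nodup :=
    Multiset.nodup_of_le hle Finset.univ.nodup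
  have hmonK : (P.map (algebraMap (ZMod p) K)).Monic := hmon.map _
  have hcard : Multiset.card (P.map (algebraMap (ZMod p) K)).roots = e := by
    rw [Polynomial.splits_iff_card_roots.1 hPsplit, hmon.natDegree_map, hdeg]
  have hset : (Finset.univ : Finset K).filter (fun x => minpoly (ZMod p) x = P) =
      (P.map (algebraMap (ZMod p) K)).roots.toFinset := by
    ext x
    rw [Finset.mem_filter, Multiset.mem_toFinset, Polynomial.mem_roots hmonK.ne_zero]
    simp only [Finset.mem_univ, true_and]
    constructor
    · intro h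
      rw [Polynomial.IsRoot.def, Polynomial.eval_map, ← h]
      exact minpoly.aeval _ _
    · intro h
      rw [Polynomial.IsRoot.def, Polynomial.eval_map] at h
      exact (minpoly.eq_of_irreducible_of_monic hirr h hmon).symm
  rw [hset, Multiset.toFinset_card_of_nodup hnodup, hcard]

end Pool.Agent.K4W.H17
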